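import Pool.Agent.H12.UCR.Stmts4

/-! Row FJX of the board `ucr`. -/

set_option autoImplicit false

open MeasureTheory Filter Topology

namespace Pool.UCR

/-- the function on the line -/
noncomputable def fjx_g (p : ℕ) (s : ℝ) (J : ℕ) (u : ℝ) : ℝ :=
  ∏ j ∈ Finset.range J, ‖ph s ((p : ℝ) ^ j * (p : ℝ) ^ u)‖

lemma fjx_cont (p : ℕ) (s : ℝ) (J : ℕ) (hp : 2 ≤ p) : Continuous (fjx_g p s J) := by
  unfold fjx_g
  refine continuous_finsetProd _ fun j _ => ?_
  unfold ph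
  have hp0 : (p : ℝ) ≠ 0 := by
    have : (0 : ℝ) < p := by exact_mod_cast (by omega : 0 < p)
    exact this.ne'
  have h1 : Continuous fun u : ℝ => (p : ℝ) ^ u := Real.continuous_const_rpow hp0
  have h2 : Continuous fun u : ℝ => (((p : ℝ) ^ j * (p : ℝ) ^ u : ℝ) : ℂ) :=
    Complex.continuous_ofReal.comp (continuous_const.mul h1)
  exact (continuous_const.add (continuous_const.mul
    (Complex.continuous_exp.comp (continuous_const.mul h2)))).norm

lemma fjx_nat (h1 : PHNS) (s : ℝ) (hs : 0 ≤ s) (hs' : s ≤ 1) (n : ℕ) : ‖ph s (n : ℝ)‖ = 1 := by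
  have h := (h1 s 0 hs hs').2.2.2 (n : ℤ)
  rw [Int.cast_natCast] at h
  rw [h, norm_one]

lemma fjx_zero (h1 : PHNS) (p : ℕ) (s : ℝ) (J : ℕ) (hs : 0 ≤ s) (hs' : s ≤ 1) :
    fjx_g p s J 0 = 1 := by
  unfold fjx_g
  refine Finset.prod_eq_one fun j _ => ?_
  have h := fjx_nat h1 s hs hs' (p ^ j)
  push_cast at h
  rw [Real.rpow_zero, mul_one]
  exact h

lemma fjx_one (h1 : PHNS) (p : ℕ) (s : ℝ) (J : ℕ) (hs : 0 ≤ s) (hs' : s ≤ 1) :
    fjx_g p s J 1 = 1 := by
  unfold fjx_g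
  refine Finset.prod_eq_one fun j _ => ?_
  have h := fjx_nat h1 s hs hs' (p ^ j * p)
  push_cast at h
  rw [Real.rpow_one]
  exact h

/-- Row FJX. -/
theorem fjx_thm (h1 : PHNS) (h2 : SBUS) : FJXS := by
  intro p s hp hs hs' J
  have hc : Continuous (AddCircle.liftIco (1 : ℝ) 0 (fjx_g p s J)) := by
    apply AddCircle.liftIco_zero_continuous
    · rw [fjx_zero h1 p s J hs hs', fjx_one h1 p s J hs hs']
    · exact (fjx_cont p s J hp).continuousOn
  have hv : ∀ u : ℝ, 0 ≤ u → u < 1 →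
      AddCircle.liftIco (1 : ℝ) 0 (fjx_g p s J) (u : UnitAddCircle) = fjx_g p s J u := by
    intro u hu hu'
    exact AddCircle.liftIco_zero_coe_apply ⟨hu, hu'⟩
  refine ⟨⟨AddCircle.liftIco (1 : ℝ) 0 (fjx_g p s J), hc⟩, fun u hu hu' => hv u hu hu', ?_⟩
  have h3 := UnitAddCircle.intervalIntegral_preimage 0
    (AddCircle.liftIco (1 : ℝ) 0 (fjx_g p s J))
  have h4 : ∫ x, AddCircle.liftIco (1 : ℝ) 0 (fjx_g p s J) x ∂(volume : Measure UnitAddCircle) =
      ∫ u in (0 : ℝ)..1, fjx_g p s J u := by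
    rw [← h3, zero_add]
    apply intervalIntegral.integral_congr
    intro u hu
    rw [Set.uIcc_of_le zero_le_one] at hu
    rcases eq_or_lt_of_le hu.2 with h | h
    · show AddCircle.liftIco (1 : ℝ) 0 (fjx_g p s J) (u : UnitAddCircle) = fjx_g p s J u
      have h5 : ((1 : ℝ) : UnitAddCircle) = ((0 : ℝ) : UnitAddCircle) := by
        rw [AddCircle.coe_period]
        rfl
      rw [h, h5, hv 0 le_rfl zero_lt_one, fjx_zero h1 p s J hs hs', fjx_one h1 p s J hs hs']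
    · exact hv u hu.1 h
  show ∫ x, AddCircle.liftIco (1 : ℝ) 0 (fjx_g p s J) x ∂(volume : Measure UnitAddCircle) ≤ _
  rw [h4]
  exact h2 p s hp hs hs' J

end Pool.UCR
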