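import Pool.Agent.H12.UCR.Stmts

/-! Row POC of the board `ucr`. -/

set_option autoImplicit false

open MeasureTheory Filter Topology

namespace Pool.UCR

lemma poc_split (f : ℕ → ℂ) (m N : ℕ) : ∑ n ∈ Finset.range (m * N), f n =
    ∑ r ∈ Finset.range m, ∑ n ∈ Finset.range N, f (m * n + r) := by
  induction N with
  | zero => simp
  | succ N ih =>
    rw [Nat.mul_succ, Finset.sum_range_add, ih, ← Finset.sum_add_distrib]
    refine Finset.sum_congr rfl fun r _ => ?_
    rw [Finset.sum_range_succ]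

lemma poc_av (Q k N : ℕ) (c : ℕ → ℂ) :
    ∑ n ∈ Finset.range N, c (k * Q ^ n) = (N : ℂ) * Av Q k N c := by
  unfold Av
  rcases Nat.eq_zero_or_pos N with h | h
  · subst h
    simp
  · have h1 : (N : ℂ) ≠ 0 := by exact_mod_cast h.ne'
    rw [← mul_assoc, mul_inv_cancel₀ h1, one_mul]

lemma poc_bound (q m k N : ℕ) (c : ℕ → ℂ) (hc : ∀ j, ‖c j‖ ≤ 1) (hm : 1 ≤ m) :
    ‖Av q k N c‖ ≤ ∑ r ∈ Finset.range m, ‖Av (q ^ m) (k * q ^ r) (N / m) c‖ +
      (m : ℝ) * (N : ℝ)⁻¹ := by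
  have h1 : ∑ n ∈ Finset.range N, c (k * q ^ n) =
      ∑ r ∈ Finset.range m, ((N / m : ℕ) : ℂ) * Av (q ^ m) (k * q ^ r) (N / m) c +
        ∑ x ∈ Finset.range (N % m), c (k * q ^ (m * (N / m) + x)) := by
    conv_lhs => rw [← Nat.div_add_mod N m]
    rw [Finset.sum_range_add, poc_split]
    congr 1
    refine Finset.sum_congr rfl fun r _ => ?_
    rw [← poc_av]
    refine Finset.sum_congr rfl fun n _ => ?_
    congr 1
    rw [pow_add, pow_mul]
    ring
  have h2 : ‖∑ n ∈ Finset.range N, c (k * q ^ n)‖ ≤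
      ((N / m : ℕ) : ℝ) * ∑ r ∈ Finset.range m, ‖Av (q ^ m) (k * q ^ r) (N / m) c‖ + m := by
    rw [h1]
    refine (norm_add_le _ _).trans (add_le_add ?_ ?_)
    · refine (norm_sum_le _ _).trans (le_of_eq ?_)
      rw [Finset.mul_sum]
      refine Finset.sum_congr rfl fun r _ => ?_
      rw [norm_mul, Complex.norm_natCast]
    · refine (norm_sum_le _ _).trans ?_
      refine (Finset.sum_le_sum fun x _ => hc _).trans ?_
      rw [Finset.sum_const, Finset.card_range, nsmul_eq_mul, mul_one]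
      exact_mod_cast (Nat.mod_lt N hm).le
  have h3 : (0 : ℝ) ≤ ∑ r ∈ Finset.range m, ‖Av (q ^ m) (k * q ^ r) (N / m) c‖ :=
    Finset.sum_nonneg fun _ _ => norm_nonneg _
  have h4 : ((N / m : ℕ) : ℝ) ≤ N := by exact_mod_cast Nat.div_le_self N m
  unfold Av at *
  rw [norm_mul, norm_inv, Complex.norm_natCast]
  rcases Nat.eq_zero_or_pos N with h | h
  · subst h
    simp
  · have hN : (0 : ℝ) < N := by exact_mod_cast h
    have h5 := mul_le_mul_of_nonneg_left h2 (inv_nonneg.2 hN.le)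
    refine h5.trans ?_
    rw [mul_add, mul_comm (N : ℝ)⁻¹ (m : ℝ), ← mul_assoc]
    refine add_le_add ?_ le_rfl
    refine (mul_le_mul_of_nonneg_right ?_ h3).trans (le_of_eq (one_mul _))
    rw [inv_mul_le_iff₀ hN, mul_one]
    exact h4

/-- Row POC. -/
theorem poc_thm : POCS := by
  intro q m c hc hq hm h k hk
  rw [tendsto_zero_iff_norm_tendsto_zero]
  have hdiv : Tendsto (fun N : ℕ => N / m) atTop atTop :=
    Nat.tendsto_div_const_atTop (by omega)
  have h1 : Tendsto (fun N : ℕ => ∑ r ∈ Finset.range m,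
      ‖Av (q ^ m) (k * q ^ r) (N / m) c‖ + (m : ℝ) * (N : ℝ)⁻¹) atTop (𝓝 (0 + (m : ℝ) * 0)) := by
    refine Tendsto.add ?_ (tendsto_inv_atTop_nhds_zero_nat.const_mul _)
    have h2 : Tendsto (fun N : ℕ => ∑ r ∈ Finset.range m,
        ‖Av (q ^ m) (k * q ^ r) (N / m) c‖) atTop (𝓝 (∑ r ∈ Finset.range m, (0 : ℝ))) := by
      refine tendsto_finsetSum _ fun r _ => ?_
      have h3 := h (k * q ^ r) (Nat.mul_pos hk (pow_pos (by omega) r))
      rw [tendsto_zero_iff_norm_tendsto_zero] at h3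
      exact h3.comp hdiv
    simpa using h2
  rw [mul_zero, add_zero] at h1
  exact squeeze_zero (fun _ => norm_nonneg _) (fun N => poc_bound q m k N c hc hm) h1

end Pool.UCR
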